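import Pool.Agent.H79.XR2.UPP4

/-!
# Project XR2, row UPP: rotation numbers of a body with blunt tips
-/

set_option autoImplicit false

open MeasureTheory Set Filter Topology Metric
open scoped Real ENNReal

namespace Pool.XR2

open Pool.Agent.H45.XR

namespace UPaux

theorem noSeg_pi {C : Set ℂ} {φ : ℝ} (h : NoSeg C φ) : NoSeg C (φ + π) := by
  intro p hp q hq hne hpq
  rw [B3.tc_add_pi, B3.tc_add_pi, neg_inj] at hpq
  obtain ⟨z, hz, hz1⟩ := h p hp q hq hne hpq
  exact ⟨z, hz, by rw [B3.tc_add_pi, B3.tc_add_pi, hz1]⟩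

theorem fast_pi {C : Set ℂ} {φ : ℝ} (h : Fast C φ) : Fast C (φ + π) := by
  obtain ⟨B, hB, α, hα, δ, hδ, h1⟩ := h
  refine ⟨B, hB, α, hα, δ, hδ, ?_⟩
  intro σ hσ p hp hpt y t hy ht
  have h2 := h1 (-σ) (by rcases hσ with h | h <;> rw [h] <;> simp) p hp
    (fun z hz => by
      have := hpt z hz
      rw [B3.tc_add_pi, B3.tc_add_pi] at this
      linarith) (-y) t (by rw [abs_neg]; exact hy) ht
  have h3 : p + ((-y : ℝ) : ℂ) * e φ + ((-σ * t : ℝ) : ℂ) * (Complex.I * e φ) =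
      p + (y : ℂ) * e (φ + π) + ((σ * t : ℝ) : ℂ) * (Complex.I * e (φ + π)) := by
    rw [e_add_pi]
    push_cast
    ring
  rw [h3] at h2
  exact h2

theorem tm_pi (C : Set ℂ) (φ : ℝ) : Tm C (φ + π) = Tm C φ := by
  unfold Tm
  have h := (Measure.measurePreserving_neg (volume : Measure ℝ)).setLIntegral_comp_preimage_emb
    (MeasurableEquiv.neg ℝ).measurableEmbedding (fun t => ENNReal.ofReal (2 / xr C φ t))
    {t : ℝ | 0 < xr C φ t}
  rw [← h]
  have e1 : {t : ℝ | 0 < xr C (φ + π) t} = Neg.neg ⁻¹' {t : ℝ | 0 < xr C φ t} := by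
    ext t
    show 0 < xr C (φ + π) t ↔ 0 < xr C φ (-t)
    rw [HL.xr_pi]
  rw [e1]
  congr 1
  funext t
  rw [HL.xr_pi]

end UPaux

open UPaux in
/-- UPP: rotation numbers of a body with blunt tips are at least `θ / Tm`. -/
theorem t_upp (hX : FLXStmt) (hFB : FLBStmt) (hA : RHAStmt) (hM : MNFStmt) : UPPStmt := by
  intro C φ θ hC hS hF hSn hθ0 hθt
  have hI := (hX C φ hC hS).1
  obtain ⟨r, hr1, hr2, hr3, hr4⟩ := hI.rt
  obtain ⟨l, hl1, hl2, hl3, hl4⟩ := hI.lt
  obtain ⟨R, hR⟩ := hC.cpt.isBounded.subset_closedBall (0:ℂ)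
  have hTm : Tm C φ ≠ ⊤ := by
    obtain ⟨B, hB, α, hα, δ, hδ, hFs⟩ := hF
    exact tm_fin hC.conv hR hB hα hδ hFs (pt_mem hC r) (pt_mem hC l) hr4 hl4
  refine ⟨hTm, fun L hL => ?_⟩
  set A := (Tm C φ).toReal with hAdef
  have hTA : Tm C φ = ENNReal.ofReal A := (ENNReal.ofReal_toReal hTm).symm
  have hA0 : 0 ≤ A := ENNReal.toReal_nonneg
  have hL0 : 0 < L := by
    by_contra hn
    push Not at hn
    rw [ENNReal.ofReal_of_nonpos hn] at hL
    exact absurd hL not_lt_zero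
  have hAL : A < L := by
    rw [hTA] at hL
    exact (ENNReal.ofReal_lt_ofReal_iff hL0).1 hL
  set L1 := (A + L) / 4 with hL1
  have hL10 : 0 < L1 := by rw [hL1]; linarith
  have hT1 : Tm C φ < ENNReal.ofReal (2 * L1) := by
    rw [hTA]
    exact (ENNReal.ofReal_lt_ofReal_iff (by linarith)).2 (by rw [hL1]; linarith)
  have hFB3 : ∀ ψ, NoSeg C ψ → ∀ x, fl C (ψ + π) x = fl C ψ x + 2 * π :=
    fun ψ hψ => (hFB C ψ hC hψ).2.2.1
  obtain ⟨a, ha, ha1⟩ := half hX hFB hM hC hS hF hT1 hr1 hr2 hr3 hr4 hl1 hl2 hl3 hl4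
  obtain ⟨b, hb, hb1⟩ := half hX hFB hM (φ := φ + π) (r := l) (l := r + 2 * π) hC (noSeg_pi hS)
    (fast_pi hF) (by rw [tm_pi]; exact hT1) (by linarith) (by linarith)
    (by rw [hFB3 φ hS, hl3]; ring)
    (fun z hz => by rw [B3.tc_add_pi, B3.tc_add_pi]; linarith [hl4 z hz])
    (by linarith) (by linarith)
    (by rw [hFB3 φ hS, hI.per, hr3]; ring)
    (fun z hz => by
      rw [B3.tc_add_pi, B3.tc_add_pi, pt_periodic]; linarith [hr4 z hz])
  have ev : ∀ᶠ n in atTop, θ n < min (min a b) ((L - 2 * L1) / 2) := by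
    refine hθt.eventually (gt_mem_nhds ?_)
    refine lt_min (lt_min ha hb) ?_
    rw [hL1]; linarith
  filter_upwards [ev] with n hn
  have hn1 : θ n < a := hn.trans_le ((min_le_left _ _).trans (min_le_left _ _))
  have hn2 : θ n < b := hn.trans_le ((min_le_left _ _).trans (min_le_right _ _))
  have hn3 : θ n < (L - 2 * L1) / 2 := hn.trans_le (min_le_right _ _)
  have hθn := hθ0 n
  set t := θ n with ht
  set N := ⌈L1 / t⌉₊ with hN
  have hN1 : L1 ≤ N * t := by
    have := Nat.le_ceil (L1 / t)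
    rw [← hN, div_le_iff₀ hθn] at this
    exact this
  have hN2 : N * t ≤ L1 + t := by
    have h1 : (N : ℝ) < L1 / t + 1 := Nat.ceil_lt_add_one (by positivity)
    have h2 : (N : ℝ) * t ≤ (L1 / t + 1) * t := mul_le_mul_of_nonneg_right h1.le hθn.le
    have h3 : (L1 / t + 1) * t = L1 + t := by field_simp
    linarith
  have hNpos : (0:ℝ) < N := by
    by_contra hneg
    push Not at hneg
    nlinarith
  have hNnat : 0 < N := by exact_mod_cast hNpos
  have hSt : NoSeg C (φ + t) := hSn n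
  have e1 := ha1 t hθn hn1 hSt N hN1
  have e2 := hb1 t hθn hn2 (by
    have := noSeg_pi hSt
    rw [show φ + π + t = φ + t + π by ring]; exact this) N hN1
  have hTT : TT C (φ + π) (φ + π + t) = TT C φ (φ + t) := by
    funext x
    show fl C (φ + π + t) (fl C (φ + π) x) = fl C (φ + t) (fl C φ x)
    rw [show φ + π + t = φ + t + π by ring, hFB3 (φ + t) hSt, hFB3 φ hS,
      ((hX C (φ + t) hC hSt).1).per]
    ring
  rw [hTT] at e2
  have hdeg := ((hFB C φ hC hS).2.2.2.2.2 (φ + t) hSt).1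
  set T := TT C φ (φ + t) with hT
  have e3 : r + 2 * π * ((1 : ℤ) : ℝ) ≤ T^[N + N] r := by
    rw [Function.iterate_add_apply]
    have h1 : T^[N] l ≤ T^[N] (T^[N] r) := (hdeg.mono.monotone.iterate N) e1
    push_cast
    linarith
  have e4 := (hA T hdeg).2.1 r 1 (N + N) (by omega) e3
  have e5 : (1:ℝ) / (2 * N) ≤ rot C φ (φ + t) := by
    show (1:ℝ) / (2 * N) ≤ rho T
    refine le_trans (le_of_eq ?_) e4
    push_cast
    ring
  calc t = (2 * N * t) * (1 / (2 * N)) := by field_simp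
    _ ≤ L * (1 / (2 * N)) := by
        apply mul_le_mul_of_nonneg_right _ (by positivity)
        linarith
    _ ≤ L * rot C φ (φ + t) := mul_le_mul_of_nonneg_left e5 hL0.le

end Pool.XR2
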