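import Pool.Agent.H52.XR2.S2
import Pool.Agent.H47.XR2.Lev

/-!
# Project XR2, row UPP: geometry of one step
-/

set_option autoImplicit false

open MeasureTheory Set Filter Topology Metric
open scoped Real ENNReal

namespace Pool.XR2

open Pool.Agent.H45.XR

namespace UPaux

theorem tc_ie (φ : ℝ) : tc φ (Complex.I * e φ) = 1 := by
  simp only [tc, Complex.mul_re, Complex.mul_im, Complex.I_re, Complex.I_im, e_re, e_im]
  nlinarith [Real.sin_sq_add_cos_sq φ]

theorem yc_ie (φ : ℝ) : yc φ (Complex.I * e φ) = 0 := by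
  simp only [yc, Complex.mul_re, Complex.mul_im, Complex.I_re, Complex.I_im, e_re, e_im]
  ring

theorem yc_add_pi (φ : ℝ) (z : ℂ) : yc (φ + π) z = - yc φ z := by
  simp only [yc, Real.cos_add_pi, Real.sin_add_pi]
  ring

theorem ext_coord {φ : ℝ} {z w : ℂ} (h1 : yc φ z = yc φ w) (h2 : tc φ z = tc φ w) : z = w := by
  rw [decomp φ z, decomp φ w, h1, h2]

/-- from a point `M` of a convex set towards the point `O` above `z`. -/
theorem up {C : Set ℂ} (hC : Convex ℝ C) {φ θ R D K : ℝ} {M z O : ℂ} (hz : z ∈ C) (hO : O ∈ C)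
    (hzM : tc φ z = tc φ M) (hO1 : tc φ O = tc φ M + D) (hD : 0 < D)
    (ha : yc φ M ≤ yc φ z) (ha2 : yc φ z - yc φ M ≤ 2 * R)
    (hzO : |yc φ z - yc φ O| ≤ 2 * R) (hs : 0 < Real.sin θ)
    (hK : 2 * R ≤ K * D) (hc : 0 < Real.cos θ - K * Real.sin θ)
    (hl : 2 * R * Real.sin θ ≤ D * (Real.cos θ - K * Real.sin θ)) :
    ∃ u : ℝ, 0 ≤ u ∧ M + u * e (φ + θ) ∈ C ∧
      yc φ z - yc φ M ≤ u * (Real.cos θ + K * Real.sin θ) := by
  set a := yc φ z - yc φ M with hadef
  set b := (yc φ z - yc φ O) / D with hb
  have hbK : |b| ≤ K := by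
    rw [hb, abs_div, abs_of_pos hD, div_le_iff₀ hD]
    exact hzO.trans hK
  obtain ⟨hb1, hb2⟩ := abs_le.1 hbK
  set w := Real.cos θ + b * Real.sin θ with hw
  have hw1 : Real.cos θ - K * Real.sin θ ≤ w := by
    rw [hw]; nlinarith
  have hw2 : w ≤ Real.cos θ + K * Real.sin θ := by
    rw [hw]; nlinarith
  have hw0 : 0 < w := by linarith
  have ha0 : 0 ≤ a := by linarith
  refine ⟨a / w, div_nonneg ha0 hw0.le, ?_, ?_⟩
  · set lam := a / w * Real.sin θ / D with hlam
    have hl0 : 0 ≤ lam := by positivity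
    have hl1 : lam ≤ 1 := by
      rw [hlam, div_le_one hD, div_mul_eq_mul_div, div_le_iff₀ hw0]
      nlinarith
    have hmem : (1 - lam) • z + lam • O ∈ C := hC hz hO (by linarith) hl0 (by ring)
    have heq : M + ((a / w : ℝ) : ℂ) * e (φ + θ) = (1 - lam) • z + lam • O := by
      apply ext_coord (φ := φ)
      · rw [yc_add, yc_mul, yc_e, yc_add, yc_smul, yc_smul]
        rw [show φ + θ - φ = θ by ring]
        have e1 : yc φ O = yc φ z - b * D := by
          rw [hb]; field_simp; ring
        rw [e1, hlam]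
        have e2 : yc φ M = yc φ z - a := by rw [hadef]; ring
        rw [e2]
        have e3 : a / w * Real.cos θ = a - b * (a / w * Real.sin θ) := by
          have : a = a / w * w := by field_simp
          conv_rhs => rw [this]
          rw [hw]
          have h5 : w ≠ 0 := hw0.ne'
          rw [← hw]
          field_simp
          rw [hw]
          ring
        rw [e3]
        field_simp
        ring
      · rw [tc_add, tc_mul, tc_e, tc_add, tc_smul, tc_smul]
        rw [show φ + θ - φ = θ by ring, hzM, hO1, hlam]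
        field_simp
        ring
    rw [heq]; exact hmem
  · calc a = a / w * w := by field_simp
      _ ≤ a / w * (Real.cos θ + K * Real.sin θ) :=
        mul_le_mul_of_nonneg_left hw2 (div_nonneg ha0 hw0.le)

/-- Case (c): the X-ray between the levels of the end points of a chord in the direction `φ + θ`. -/
theorem mid {C : Set ℂ} (hC : Body C) {φ θ R K s0 s : ℝ} (hS' : NoSeg C (φ + θ))
    (hR : C ⊆ closedBall 0 R) {P Q Op Om : ℂ} (hP : P ∈ C) (hQ : Q ∈ C) (nP : P ∉ interior C)
    (nQ : Q ∉ interior C) (hs : 0 < s) (hPQ : Q = P + s * e (φ + θ)) (hOp : Op ∈ C) (hOm : Om ∈ C)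
    (hθ : 0 < Real.sin θ) (hs0 : 0 < s0) (hK : K = 4 * R / s0)
    (hl : 2 * R * Real.sin θ ≤ s0 / 2 * (Real.cos θ - K * Real.sin θ)) {τ : ℝ}
    (h1 : tc φ P ≤ τ) (h2 : τ ≤ tc φ Q) (h3 : tc φ Om + s0 / 2 ≤ τ) (h4 : τ + s0 / 2 ≤ tc φ Op) :
    xr C φ τ ≤ s * (Real.cos θ + K * Real.sin θ) := by
  have hR0 : 0 < R := by
    have := hR (hOp)
    rw [mem_closedBall_zero_iff] at this
    have h5 := HL.abs_tc_le (φ := φ) Op
    have h6 := HL.abs_tc_le (φ := φ) Om
    have := hR (hOm)
    rw [mem_closedBall_zero_iff] at this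
    have h7 := abs_le.1 h5
    have h8 := abs_le.1 h6
    by_contra hn
    push Not at hn
    linarith [h7.2, h8.1]
  have hKpos : 0 < K := by rw [hK]; positivity
  have hcos : 0 < Real.cos θ - K * Real.sin θ := by
    by_contra hn
    push Not at hn
    have : 0 < 2 * R * Real.sin θ := by positivity
    nlinarith
  have htQ : tc φ Q = tc φ P + s * Real.sin θ := by
    rw [hPQ, tc_add, tc_mul, tc_e]
    rw [show φ + θ - φ = θ by ring]
  set v := (τ - tc φ P) / Real.sin θ with hv
  have hv0 : 0 ≤ v := div_nonneg (by linarith) hθ.le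
  have hvs : v ≤ s := by
    rw [hv, div_le_iff₀ hθ]; linarith
  set M : ℂ := P + (v : ℂ) * e (φ + θ) with hM
  have htM : tc φ M = τ := by
    rw [hM, tc_add, tc_mul, tc_e]
    rw [show φ + θ - φ = θ by ring, hv]
    field_simp
    ring
  have hMC : M ∈ C := by
    have h5 : M = (1 - v / s) • P + (v / s) • Q := by
      rw [hPQ, hM, Complex.real_smul, Complex.real_smul]
      push_cast
      have : (s : ℂ) ≠ 0 := by exact_mod_cast hs.ne'
      field_simp
      ring
    rw [h5]
    refine hC.conv hP hQ ?_ (div_nonneg hv0 hs.le) (by ring)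
    rw [sub_nonneg, div_le_one hs]; exact hvs
  have hch := HL.chord_max hC hS' hP hQ nP nQ hs hPQ
  have bd : ∀ z ∈ C, |yc φ z| ≤ R := fun z hz =>
    (HL.abs_yc_le z).trans (mem_closedBall_zero_iff.1 (hR hz))
  set W := Real.cos θ + K * Real.sin θ with hW
  have hW0 : 0 < W := by nlinarith
  have key := HL.xr_le (C := C) (φ := φ) (t := τ) (A := yc φ M - v * W)
    (B := yc φ M + (s - v) * W) (by nlinarith) ?_
  · calc xr C φ τ ≤ _ := key
      _ = s * W := by ring
  intro z hz hzt
  constructor
  · by_cases hcmp : yc φ z ≤ yc φ M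
    · obtain ⟨u, hu0, huC, hua⟩ := up (φ := φ + π) (θ := θ) (R := R) (D := τ - tc φ Om) (K := K)
        (M := M) (z := z) (O := Om) hC.conv hz hOm
        (by rw [B3.tc_add_pi, B3.tc_add_pi, hzt, htM])
        (by rw [B3.tc_add_pi, B3.tc_add_pi, htM]; ring) (by linarith)
        (by rw [yc_add_pi, yc_add_pi]; linarith)
        (by
          rw [yc_add_pi, yc_add_pi]
          have h6 := abs_le.1 (bd z hz)
          have h7 := abs_le.1 (bd M hMC)
          linarith [h6.1, h7.2])
        (by
          rw [yc_add_pi, yc_add_pi]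
          have h6 := abs_le.1 (bd z hz)
          have h7 := abs_le.1 (bd Om hOm)
          rw [abs_le]
          constructor <;> linarith [h6.1, h7.2, h6.2, h7.1]) hθ
        (by
          have h6 : K * (s0 / 2) = 2 * R := by rw [hK]; field_simp; ring
          have h7 : s0 / 2 ≤ τ - tc φ Om := by linarith
          nlinarith) hcos
        (by
          have h7 : s0 / 2 ≤ τ - tc φ Om := by linarith
          nlinarith)
      have h8 : M + (u : ℂ) * e (φ + π + θ) = P + ((v - u : ℝ) : ℂ) * e (φ + θ) := by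
        rw [show φ + π + θ = φ + θ + π by ring, e_add_pi, hM]
        push_cast
        ring
      rw [h8] at huC
      have h9 := (hch _ huC).1
      rw [yc_add_pi, yc_add_pi] at hua
      have h10 : u * W ≤ v * W := mul_le_mul_of_nonneg_right (by linarith) hW0.le
      linarith
    · push Not at hcmp
      have : 0 ≤ v * W := mul_nonneg hv0 hW0.le
      linarith
  · by_cases hcmp : yc φ M ≤ yc φ z
    · obtain ⟨u, hu0, huC, hua⟩ := up (φ := φ) (θ := θ) (R := R) (D := tc φ Op - τ) (K := K)
        (M := M) (z := z) (O := Op) hC.conv hz hOp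
        (by rw [hzt, htM])
        (by rw [htM]; ring) (by linarith) hcmp
        (by
          have h6 := abs_le.1 (bd z hz)
          have h7 := abs_le.1 (bd M hMC)
          linarith [h6.2, h7.1])
        (by
          have h6 := abs_le.1 (bd z hz)
          have h7 := abs_le.1 (bd Op hOp)
          rw [abs_le]
          constructor <;> linarith [h6.1, h7.2, h6.2, h7.1]) hθ
        (by
          have h6 : K * (s0 / 2) = 2 * R := by rw [hK]; field_simp; ring
          have h7 : s0 / 2 ≤ tc φ Op - τ := by linarith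
          nlinarith) hcos
        (by
          have h7 : s0 / 2 ≤ tc φ Op - τ := by linarith
          nlinarith)
      have h8 : M + (u : ℂ) * e (φ + θ) = P + ((v + u : ℝ) : ℂ) * e (φ + θ) := by
        rw [hM]
        push_cast
        ring
      rw [h8] at huC
      have h9 := (hch _ huC).2
      have h10 : u * W ≤ (s - v) * W := mul_le_mul_of_nonneg_right (by linarith) hW0.le
      linarith
    · push Not at hcmp
      have : 0 ≤ (s - v) * W := mul_nonneg (by linarith) hW0.le
      linarith

end UPaux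

end Pool.XR2
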