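import Pool.Agent.H79.XR2.UPP1

/-!
# Project XR2, row UPP: the gain function
-/

set_option autoImplicit false

open MeasureTheory Set Filter Topology Metric
open scoped Real ENNReal

namespace Pool.XR2

open Pool.Agent.H45.XR

namespace UPaux

/-- the contribution of a tip -/
noncomputable def hh (B β s0 : ℝ) : ℝ → ℝ≥0∞ :=
  (Ioc 0 s0).indicator (fun x => ENNReal.ofReal (2 / (x / B) ^ β))

theorem hh_meas (B β s0 : ℝ) : Measurable (hh B β s0) := by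
  unfold hh
  refine Measurable.indicator ?_ measurableSet_Ioc
  fun_prop

theorem int_hh {B β s0 : ℝ} (hB : 0 < B) (hβ1 : β < 1) (hs : 0 < s0) :
    ∫⁻ x, hh B β s0 x = ENNReal.ofReal (2 * B ^ β * (s0 ^ (1 - β) / (1 - β))) := by
  unfold hh
  rw [lintegral_indicator measurableSet_Ioc]
  have e1 : ∫⁻ x in Ioc 0 s0, ENNReal.ofReal (2 / (x / B) ^ β) =
      ∫⁻ x in Ioc 0 s0, ENNReal.ofReal (2 * B ^ β * x ^ (-β)) := by
    refine setLIntegral_congr_fun measurableSet_Ioc ?_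
    intro x hx
    have hx0 : 0 < x := hx.1
    show ENNReal.ofReal _ = ENNReal.ofReal _
    rw [Real.div_rpow hx0.le hB.le, Real.rpow_neg hx0.le]
    congr 1
    have h1 : (0:ℝ) < x ^ β := Real.rpow_pos_of_pos hx0 _
    have h2 : (0:ℝ) < B ^ β := Real.rpow_pos_of_pos hB _
    field_simp
  rw [e1]
  have hint : IntervalIntegrable (fun x : ℝ => x ^ (-β)) volume 0 s0 :=
    intervalIntegral.intervalIntegrable_rpow' (by linarith)
  rw [intervalIntegrable_iff_integrableOn_Ioc_of_le hs.le] at hint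
  have hint2 : IntegrableOn (fun x : ℝ => 2 * B ^ β * x ^ (-β)) (Ioc 0 s0) volume :=
    hint.const_mul _
  rw [← ofReal_integral_eq_lintegral_ofReal hint2]
  · congr 1
    rw [← intervalIntegral.integral_of_le hs.le, intervalIntegral.integral_const_mul,
      integral_rpow (Or.inl (by linarith))]
    rw [show -β + 1 = 1 - β by ring, Real.zero_rpow (by linarith)]
    ring
  · filter_upwards [ae_restrict_mem measurableSet_Ioc] with x hx
    have h1 : (0:ℝ) < x ^ (-β) := Real.rpow_pos_of_pos hx.1 _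
    have h2 : (0:ℝ) < B ^ β := Real.rpow_pos_of_pos hB _
    show 0 ≤ _
    positivity

theorem Y_id {B α x : ℝ} (hB : 0 < B) (hα : 0 < α) (hx : 0 ≤ x) :
    B * |(x / B) ^ (1 / (1 + α))| ^ (1 + α) = x := by
  rw [abs_of_nonneg (Real.rpow_nonneg (div_nonneg hx hB.le) _),
    ← Real.rpow_mul (div_nonneg hx hB.le)]
  rw [show 1 / (1 + α) * (1 + α) = 1 by field_simp, Real.rpow_one]
  field_simp

theorem Y_id' {B α x : ℝ} (hB : 0 < B) (hα : 0 < α) (hx : 0 ≤ x) :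
    B * |-(x / B) ^ (1 / (1 + α))| ^ (1 + α) = x := by
  rw [abs_neg]; exact Y_id hB hα hx

theorem Y_nonneg {B x β : ℝ} (hB : 0 < B) (hx : 0 ≤ x) : 0 ≤ (x / B) ^ β :=
  Real.rpow_nonneg (div_nonneg hx hB.le) _

theorem Y_pos {B x β : ℝ} (hB : 0 < B) (hx : 0 < x) : 0 < (x / B) ^ β :=
  Real.rpow_pos_of_pos (div_pos hx hB) _

theorem Y_mono {B x y β : ℝ} (hB : 0 < B) (hβ : 0 ≤ β) (hx : 0 ≤ x) (hxy : x ≤ y) :
    (x / B) ^ β ≤ (y / B) ^ β :=
  Real.rpow_le_rpow (div_nonneg hx hB.le) (div_le_div_of_nonneg_right hxy hB.le) hβ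

/-- blunt tips, both signs -/
theorem tip_mem {C : Set ℂ} {φ B α δ : ℝ} (hB : 0 < B) (hα : 0 < α)
    (hF : ∀ σ : ℝ, (σ = 1 ∨ σ = -1) → ∀ p ∈ C,
    (∀ z ∈ C, σ * tc φ p ≤ σ * tc φ z) → ∀ y t : ℝ, B * |y| ^ (1 + α) ≤ t → t ≤ δ →
      p + y * e φ + (σ * t : ℝ) * (Complex.I * e φ) ∈ C)
    {σ : ℝ} (hσ : σ = 1 ∨ σ = -1) {p : ℂ} (hp : p ∈ C) (hpt : ∀ z ∈ C, σ * tc φ p ≤ σ * tc φ z)
    {x : ℝ} (hx : 0 ≤ x) (hxδ : x ≤ δ) :
    ∃ z ∈ C, ∃ w ∈ C, tc φ z = tc φ p + σ * x ∧ tc φ w = tc φ p + σ * x ∧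
      yc φ z = yc φ p - (x / B) ^ (1 / (1 + α)) ∧ yc φ w = yc φ p + (x / B) ^ (1 / (1 + α)) := by
  refine ⟨_, hF σ hσ p hp hpt (-(x / B) ^ (1 / (1 + α))) x (Y_id' hB hα hx).le hxδ, _,
    hF σ hσ p hp hpt ((x / B) ^ (1 / (1 + α))) x (Y_id hB hα hx).le hxδ, ?_, ?_, ?_, ?_⟩
  · rw [tc_add, tc_add, tc_mul, tc_mul, tc_ie, tc_e_self]; ring
  · rw [tc_add, tc_add, tc_mul, tc_mul, tc_ie, tc_e_self]; ring
  · rw [yc_add, yc_add, yc_mul, yc_mul, yc_ie, yc_e_self]; ring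
  · rw [yc_add, yc_add, yc_mul, yc_mul, yc_ie, yc_e_self]; ring

/-- lower bound for the X-ray at all levels -/
theorem xr_low {C : Set ℂ} (hC : Convex ℝ C) {R : ℝ} (hR : C ⊆ closedBall 0 R)
    {φ B α δ : ℝ} (hB : 0 < B) (hα : 0 < α) (hδ : 0 < δ)
    (hF : ∀ σ : ℝ, (σ = 1 ∨ σ = -1) → ∀ p ∈ C,
    (∀ z ∈ C, σ * tc φ p ≤ σ * tc φ z) → ∀ y t : ℝ, B * |y| ^ (1 + α) ≤ t → t ≤ δ →
      p + y * e φ + (σ * t : ℝ) * (Complex.I * e φ) ∈ C) {p q : ℂ} (hp : p ∈ C) (hq : q ∈ C)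
    (hpm : ∀ z ∈ C, tc φ p ≤ tc φ z) (hqm : ∀ z ∈ C, tc φ z ≤ tc φ q) {τ : ℝ}
    (h1 : tc φ p < τ) (h2 : τ < tc φ q) :
    0 < xr C φ τ ∧ ENNReal.ofReal (2 / xr C φ τ) ≤
      hh B (1 / (1 + α)) δ (τ - tc φ p) + hh B (1 / (1 + α)) δ (tc φ q - τ) +
        ENNReal.ofReal (1 / (δ / B) ^ (1 / (1 + α))) := by
  have hp' : ∀ z ∈ C, (1:ℝ) * tc φ p ≤ 1 * tc φ z := fun z hz => by linarith [hpm z hz]
  have hq' : ∀ z ∈ C, (-1:ℝ) * tc φ q ≤ -1 * tc φ z := fun z hz => by linarith [hqm z hz]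
  by_cases ha : τ - tc φ p ≤ δ
  · obtain ⟨z, hz, w, hw, e1, e2, e3, e4⟩ := tip_mem hB hα hF (Or.inl rfl) hp hp'
      (x := τ - tc φ p) (by linarith) ha
    have h3 := HL.xr_ge hC hR hz hw (by rw [e1, e2])
    rw [e3, e4, e1, show tc φ p + 1 * (τ - tc φ p) = τ by ring] at h3
    have hY := Y_pos (B := B) (β := 1 / (1 + α)) hB (show 0 < τ - tc φ p by linarith)
    refine ⟨by linarith, ?_⟩
    rw [add_assoc]
    refine le_trans ?_ le_self_add
    unfold hh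
    rw [indicator_of_mem (show τ - tc φ p ∈ Ioc 0 δ from ⟨by linarith, ha⟩)]
    apply ENNReal.ofReal_le_ofReal
    apply div_le_div_of_nonneg_left (by norm_num) hY
    linarith
  by_cases hb : tc φ q - τ ≤ δ
  · obtain ⟨z, hz, w, hw, e1, e2, e3, e4⟩ := tip_mem hB hα hF (Or.inr rfl) hq hq'
      (x := tc φ q - τ) (by linarith) hb
    have h3 := HL.xr_ge hC hR hz hw (by rw [e1, e2])
    rw [e3, e4, e1, show tc φ q + -1 * (tc φ q - τ) = τ by ring] at h3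
    have hY := Y_pos (B := B) (β := 1 / (1 + α)) hB (show 0 < tc φ q - τ by linarith)
    refine ⟨by linarith, ?_⟩
    rw [add_comm (hh _ _ _ (τ - tc φ p)), add_assoc]
    refine le_trans ?_ le_self_add
    unfold hh
    rw [indicator_of_mem (show tc φ q - τ ∈ Ioc 0 δ from ⟨by linarith, hb⟩)]
    apply ENNReal.ofReal_le_ofReal
    apply div_le_div_of_nonneg_left (by norm_num) hY
    linarith
  push Not at ha hb
  obtain ⟨z, hz, w, hw, e1, e2, e3, e4⟩ := tip_mem hB hα hF (Or.inl rfl) hp hp'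
      (x := δ) hδ.le le_rfl
  obtain ⟨z', hz', w', hw', e1', e2', e3', e4'⟩ := tip_mem hB hα hF (Or.inr rfl) hq hq'
      (x := δ) hδ.le le_rfl
  set Y := (δ / B) ^ (1 / (1 + α)) with hYd
  have hY : 0 < Y := Y_pos hB hδ
  set a := tc φ p + δ with hadef
  set b := tc φ q - δ with hbdef
  have hab : 0 < b - a := by rw [hadef, hbdef]; linarith
  set lam := (τ - a) / (b - a) with hlam
  have hl0 : 0 ≤ lam := div_nonneg (by rw [hadef]; linarith) hab.le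
  have hl1 : lam ≤ 1 := by rw [hlam, div_le_one hab, hbdef]; linarith
  have m1 : (1 - lam) • z + lam • z' ∈ C := hC hz hz' (by linarith) hl0 (by ring)
  have m2 : (1 - lam) • w + lam • w' ∈ C := hC hw hw' (by linarith) hl0 (by ring)
  have t1 : tc φ ((1 - lam) • z + lam • z') = τ := by
    rw [tc_add, tc_smul, tc_smul, e1, e1', hlam]
    have : b - a ≠ 0 := hab.ne'
    rw [show tc φ p + 1 * δ = a by rw [hadef]; ring, show tc φ q + -1 * δ = b by rw [hbdef]; ring]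
    field_simp
    ring
  have t2 : tc φ ((1 - lam) • w + lam • w') = τ := by
    rw [tc_add, tc_smul, tc_smul, e2, e2', hlam]
    have : b - a ≠ 0 := hab.ne'
    rw [show tc φ p + 1 * δ = a by rw [hadef]; ring, show tc φ q + -1 * δ = b by rw [hbdef]; ring]
    field_simp
    ring
  have h3 := HL.xr_ge hC hR m1 m2 (by rw [t1, t2])
  rw [t1, yc_add, yc_add, yc_smul, yc_smul, yc_smul, yc_smul, e3, e4, e3', e4'] at h3
  have h4 : 2 * Y ≤ xr C φ τ := by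
    refine le_trans (le_of_eq ?_) h3
    ring
  refine ⟨by linarith, ?_⟩
  refine le_trans ?_ le_add_self
  apply ENNReal.ofReal_le_ofReal
  rw [div_le_div_iff₀ (by linarith) hY]
  linarith

theorem tm_fin {C : Set ℂ} (hC : Convex ℝ C) {R : ℝ} (hR : C ⊆ closedBall 0 R)
    {φ B α δ : ℝ} (hB : 0 < B) (hα : 0 < α) (hδ : 0 < δ)
    (hF : ∀ σ : ℝ, (σ = 1 ∨ σ = -1) → ∀ p ∈ C,
    (∀ z ∈ C, σ * tc φ p ≤ σ * tc φ z) → ∀ y t : ℝ, B * |y| ^ (1 + α) ≤ t → t ≤ δ →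
      p + y * e φ + (σ * t : ℝ) * (Complex.I * e φ) ∈ C) {p q : ℂ} (hp : p ∈ C) (hq : q ∈ C)
    (hpm : ∀ z ∈ C, tc φ p ≤ tc φ z) (hqm : ∀ z ∈ C, tc φ z ≤ tc φ q) : Tm C φ ≠ ⊤ := by
  have hβ1 : 1 / (1 + α) < 1 := by
    rw [div_lt_one (by linarith)]; linarith
  have hsub : {t : ℝ | 0 < xr C φ t} ⊆ Icc (tc φ p) (tc φ q) := by
    intro τ hτ
    have hτ' : 0 < xr C φ τ := hτ
    have hne : {s : ℝ | (τ : ℂ) * (Complex.I * e φ) + s * e φ ∈ C}.Nonempty := by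
      by_contra hn
      rw [not_nonempty_iff_eq_empty] at hn
      unfold xr at hτ'
      rw [hn] at hτ'
      simp at hτ'
    obtain ⟨s, hs⟩ := hne
    have h1 := hpm _ hs
    have h2 := hqm _ hs
    rw [HL.tc_fr] at h1 h2
    exact ⟨h1, h2⟩
  have hm2 : Measurable (fun t => hh B (1 / (1 + α)) δ (tc φ q - t)) :=
    (hh_meas _ _ _).comp (measurable_const.sub measurable_id)
  unfold Tm
  have key : ∫⁻ t in {t : ℝ | 0 < xr C φ t}, ENNReal.ofReal (2 / xr C φ t) ≤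
      (∫⁻ t, hh B (1 / (1 + α)) δ (t - tc φ p)) + (∫⁻ t, hh B (1 / (1 + α)) δ (tc φ q - t)) +
        ∫⁻ _ in Ioo (tc φ p) (tc φ q), ENNReal.ofReal (1 / (δ / B) ^ (1 / (1 + α))) := by
    calc _ ≤ ∫⁻ t in Icc (tc φ p) (tc φ q), ENNReal.ofReal (2 / xr C φ t) := lintegral_mono_set hsub
      _ = ∫⁻ t in Ioo (tc φ p) (tc φ q), ENNReal.ofReal (2 / xr C φ t) :=
        setLIntegral_congr Ioo_ae_eq_Icc.symm
      _ ≤ ∫⁻ t in Ioo (tc φ p) (tc φ q), (hh B (1 / (1 + α)) δ (t - tc φ p) +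
          hh B (1 / (1 + α)) δ (tc φ q - t) + ENNReal.ofReal (1 / (δ / B) ^ (1 / (1 + α)))) := by
        refine setLIntegral_mono' measurableSet_Ioo ?_
        intro t ht
        exact (xr_low hC hR hB hα hδ hF hp hq hpm hqm ht.1 ht.2).2
      _ = _ + _ + ∫⁻ _ in Ioo (tc φ p) (tc φ q), ENNReal.ofReal (1 / (δ / B) ^ (1 / (1 + α))) := by
        rw [lintegral_add_right _ measurable_const, lintegral_add_right _ hm2]
      _ ≤ _ := by
        gcongr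
        · exact Measure.restrict_le_self
        · exact Measure.restrict_le_self
  rw [lintegral_sub_right_eq_self (fun t => hh B (1 / (1 + α)) δ t),
    lintegral_sub_left_eq_self (fun t => hh B (1 / (1 + α)) δ t), int_hh hB hβ1 hδ,
    setLIntegral_const, Real.volume_Ioo] at key
  refine ne_top_of_le_ne_top ?_ key
  exact ENNReal.add_ne_top.2 ⟨ENNReal.add_ne_top.2 ⟨ENNReal.ofReal_ne_top, ENNReal.ofReal_ne_top⟩,
    ENNReal.mul_ne_top ENNReal.ofReal_ne_top ENNReal.ofReal_ne_top⟩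

end UPaux

end Pool.XR2
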