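import Pool.Agent.H79.XR2.UPP2

/-!
# Project XR2, row UPP: the gain of one step
-/

set_option autoImplicit false

open MeasureTheory Set Filter Topology Metric
open scoped Real ENNReal

namespace Pool.XR2

open Pool.Agent.H45.XR

namespace UPaux

/-- the density of the gain -/
noncomputable def dens (C : Set ℂ) (φ B β s0 tm tM τ : ℝ) : ℝ≥0∞ :=
  hh B β s0 (τ - tm) + hh B β s0 (tM - τ) +
    (Icc (tm + s0 / 2) (tM - s0 / 2)).indicator (fun x => ENNReal.ofReal (2 / xr C φ x)) τ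

theorem step_pt {C : Set ℂ} (hC : Body C) {φ θ R K s0 s B α δ : ℝ} (hS' : NoSeg C (φ + θ))
    (hR : C ⊆ closedBall 0 R) (hB : 0 < B) (hα : 0 < α)
    (hF : ∀ σ : ℝ, (σ = 1 ∨ σ = -1) → ∀ p ∈ C,
    (∀ z ∈ C, σ * tc φ p ≤ σ * tc φ z) → ∀ y t : ℝ, B * |y| ^ (1 + α) ≤ t → t ≤ δ →
      p + y * e φ + (σ * t : ℝ) * (Complex.I * e φ) ∈ C) {p q : ℂ} (hp : p ∈ C) (hq : q ∈ C)
    (hpm : ∀ z ∈ C, tc φ p ≤ tc φ z) (hqm : ∀ z ∈ C, tc φ z ≤ tc φ q)
    {P Q : ℂ} (hP : P ∈ C) (hQ : Q ∈ C) (nP : P ∉ interior C)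
    (nQ : Q ∉ interior C) (hs : 0 < s) (hPQ : Q = P + s * e (φ + θ))
    (hPb : ∀ z ∈ C, tc φ z = tc φ P → yc φ P ≤ yc φ z)
    (hQt : ∀ z ∈ C, tc φ z = tc φ Q → yc φ z ≤ yc φ Q) (hQM : tc φ Q < tc φ q)
    (hθ : 0 < Real.sin θ) (hs0 : 0 < s0) (hsδ : s0 ≤ δ) (hK : K = 4 * R / s0)
    (hl : 2 * R * Real.sin θ ≤ s0 / 2 * (Real.cos θ - K * Real.sin θ)) {τ : ℝ}
    (h1 : tc φ P < τ) (h2 : τ ≤ tc φ Q) :
    ENNReal.ofReal (2 / (s * (Real.cos θ + K * Real.sin θ))) ≤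
      dens C φ B (1 / (1 + α)) s0 (tc φ p) (tc φ q) τ := by
  have hR0 : 0 ≤ R := by
    have := hR hp
    rw [mem_closedBall_zero_iff] at this
    exact (norm_nonneg _).trans this
  have hKpos : 0 ≤ K := by rw [hK]; positivity
  have hcos : 0 ≤ Real.cos θ - K * Real.sin θ := by
    by_contra hn
    push Not at hn
    have : 0 ≤ 2 * R * Real.sin θ := by positivity
    nlinarith
  have hβ0 : 0 ≤ 1 / (1 + α) := by positivity
  have hp' : ∀ z ∈ C, (1:ℝ) * tc φ p ≤ 1 * tc φ z := fun z hz => by linarith [hpm z hz]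
  have hq' : ∀ z ∈ C, (-1:ℝ) * tc φ q ≤ -1 * tc φ z := fun z hz => by linarith [hqm z hz]
  have htQ : tc φ Q = tc φ P + s * Real.sin θ := by
    rw [hPQ, tc_add, tc_mul, tc_e]
    rw [show φ + θ - φ = θ by ring]
  have hyQ : yc φ Q = yc φ P + s * Real.cos θ := by
    rw [hPQ, yc_add, yc_mul, yc_e]
    rw [show φ + θ - φ = θ by ring]
  have hpP := hpm P hP
  have hKs : 0 ≤ s * (K * Real.sin θ) := by positivity
  unfold dens
  by_cases ha : tc φ Q - tc φ p ≤ s0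
  · -- near the lower tip
    obtain ⟨z, hz, w, hw, e1, e2, e3, e4⟩ := tip_mem hB hα hF (Or.inl rfl) hp hp'
      (x := tc φ Q - tc φ p) (by linarith) (by linarith)
    obtain ⟨z', hz', w', hw', e1', e2', e3', e4'⟩ := tip_mem hB hα hF (Or.inl rfl) hp hp'
      (x := tc φ P - tc φ p) (by linarith) (by linarith)
    have h3 := hQt w hw (by rw [e2]; ring)
    have h4 := hPb z' hz' (by rw [e1']; ring)
    have hY := Y_nonneg (B := B) (β := 1 / (1 + α)) hB (show 0 ≤ tc φ P - tc φ p by linarith)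
    have hY2 := Y_pos (B := B) (β := 1 / (1 + α)) hB (show 0 < τ - tc φ p by linarith)
    have hY3 := Y_mono (B := B) hB hβ0 (show 0 ≤ τ - tc φ p by linarith)
      (show τ - tc φ p ≤ tc φ Q - tc φ p by linarith)
    rw [add_assoc]
    refine le_trans ?_ le_self_add
    unfold hh
    rw [indicator_of_mem (show τ - tc φ p ∈ Ioc 0 s0 from ⟨by linarith, by linarith⟩)]
    apply ENNReal.ofReal_le_ofReal
    apply div_le_div_of_nonneg_left (by norm_num) hY2
    nlinarith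
  by_cases hb : tc φ q - tc φ P ≤ s0
  · -- near the upper tip
    obtain ⟨z, hz, w, hw, e1, e2, e3, e4⟩ := tip_mem hB hα hF (Or.inr rfl) hq hq'
      (x := tc φ q - tc φ P) (by linarith) (by linarith)
    obtain ⟨z', hz', w', hw', e1', e2', e3', e4'⟩ := tip_mem hB hα hF (Or.inr rfl) hq hq'
      (x := tc φ q - tc φ Q) (by linarith) (by linarith)
    have h3 := hPb z hz (by rw [e1]; ring)
    have h4 := hQt w' hw' (by rw [e2']; ring)
    have hY := Y_nonneg (B := B) (β := 1 / (1 + α)) hB (show 0 ≤ tc φ q - tc φ Q by linarith)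
    have hY2 := Y_pos (B := B) (β := 1 / (1 + α)) hB (show 0 < tc φ q - τ by linarith)
    have hY3 := Y_mono (B := B) hB hβ0 (show 0 ≤ tc φ q - τ by linarith)
      (show tc φ q - τ ≤ tc φ q - tc φ P by linarith)
    rw [add_comm (hh _ _ _ (τ - tc φ p)), add_assoc]
    refine le_trans ?_ le_self_add
    unfold hh
    rw [indicator_of_mem (show tc φ q - τ ∈ Ioc 0 s0 from ⟨by linarith, by linarith⟩)]
    apply ENNReal.ofReal_le_ofReal
    apply div_le_div_of_nonneg_left (by norm_num) hY2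
    nlinarith
  -- the middle
  push Not at ha hb
  have bd : ∀ z ∈ C, ‖z‖ ≤ R := fun z hz => mem_closedBall_zero_iff.1 (hR hz)
  have hsR : s ≤ 2 * R := by
    have h5 : ‖(s : ℂ) * e (φ + θ)‖ = s := by
      rw [norm_mul, norm_e, Complex.norm_real, Real.norm_eq_abs, abs_of_pos hs, mul_one]
    have h6 : (s : ℂ) * e (φ + θ) = Q - P := by rw [hPQ]; ring
    rw [← h5, h6]
    calc ‖Q - P‖ ≤ ‖Q‖ + ‖P‖ := norm_sub_le _ _
      _ ≤ 2 * R := by linarith [bd Q hQ, bd P hP]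
  have hstep : s * Real.sin θ ≤ s0 / 2 := by
    have h5 : s * Real.sin θ ≤ 2 * R * Real.sin θ := mul_le_mul_of_nonneg_right hsR hθ.le
    have h6 : Real.cos θ - K * Real.sin θ ≤ 1 := by
      have := Real.cos_le_one θ
      nlinarith
    nlinarith
  have hlo : tc φ p + s0 / 2 ≤ τ := by linarith
  have hhi : τ + s0 / 2 ≤ tc φ q := by linarith
  have hm := mid hC hS' hR hP hQ nP nQ hs hPQ hq hp hθ hs0 hK hl h1.le h2 hlo hhi
  refine le_trans ?_ le_add_self
  rw [indicator_of_mem (show τ ∈ Icc (tc φ p + s0 / 2) (tc φ q - s0 / 2) from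
    ⟨hlo, by linarith⟩)]
  apply ENNReal.ofReal_le_ofReal
  have hδ : 0 < δ := by linarith
  have hx := (xr_low hC.conv hR hB hα hδ hF hp hq hpm hqm (τ := τ) (by linarith)
    (by linarith)).1
  exact div_le_div_of_nonneg_left (by norm_num) hx hm

theorem gain {f : ℝ → ℝ≥0∞} {t s θ W : ℝ} (hs : 0 < s) (hθ : 0 < Real.sin θ) (hW : 0 < W)
    (h : ∀ τ, t < τ → τ ≤ t + s * Real.sin θ → ENNReal.ofReal (2 / (s * W)) ≤ f τ) :
    (∫⁻ τ in Iic t, f τ) + ENNReal.ofReal (2 * Real.sin θ / W) ≤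
      ∫⁻ τ in Iic (t + s * Real.sin θ), f τ := by
  have h1 : Iic (t + s * Real.sin θ) = Iic t ∪ Ioc t (t + s * Real.sin θ) := by
    rw [Iic_union_Ioc_eq_Iic]
    have : 0 < s * Real.sin θ := mul_pos hs hθ
    linarith
  rw [h1, lintegral_union measurableSet_Ioc (by
    rw [Set.disjoint_left]
    intro x hx hx2
    exact absurd hx2.1 (not_lt.2 hx))]
  gcongr
  calc ENNReal.ofReal (2 * Real.sin θ / W) = ENNReal.ofReal (2 / (s * W)) *
        volume (Ioc t (t + s * Real.sin θ)) := by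
        rw [Real.volume_Ioc, ← ENNReal.ofReal_mul (by positivity)]
        congr 1
        field_simp
        ring
    _ = ∫⁻ _ in Ioc t (t + s * Real.sin θ), ENNReal.ofReal (2 / (s * W)) := by
        rw [setLIntegral_const]
    _ ≤ _ := setLIntegral_mono' measurableSet_Ioc (fun τ hτ => h τ hτ.1 hτ.2)

end UPaux

end Pool.XR2
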