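import Pool.Agent.H79.XR2.UPP3

/-!
# Project XR2, row UPP: the half turn
-/

set_option autoImplicit false

open MeasureTheory Set Filter Topology Metric
open scoped Real ENNReal

namespace Pool.XR2

open Pool.Agent.H45.XR

namespace UPaux

theorem e_rot (φ θ : ℝ) : e (φ + θ) =
    (Real.cos θ : ℂ) * e φ + (Real.sin θ : ℂ) * (Complex.I * e φ) := by
  apply ext_coord (φ := φ)
  · rw [yc_e, yc_add, yc_mul, yc_mul, yc_e_self, yc_ie]
    rw [show φ + θ - φ = θ by ring]; ring
  · rw [tc_e, tc_add, tc_mul, tc_mul, tc_e_self, tc_ie]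
    rw [show φ + θ - φ = θ by ring]; ring

theorem r_move (hB : FLBStmt) {C : Set ℂ} {φ θ B α δ : ℝ} (hC : Body C) (hS' : NoSeg C (φ + θ))
    (hB0 : 0 < B) (hα : 0 < α) (hδ : 0 < δ)
    (hF : ∀ σ : ℝ, (σ = 1 ∨ σ = -1) → ∀ p ∈ C,
    (∀ z ∈ C, σ * tc φ p ≤ σ * tc φ z) → ∀ y t : ℝ, B * |y| ^ (1 + α) ≤ t → t ≤ δ →
      p + y * e φ + (σ * t : ℝ) * (Complex.I * e φ) ∈ C)
    {r : ℝ} (hr : ∀ z ∈ C, tc φ (pt C r) ≤ tc φ z) (hθ : 0 < Real.sin θ) :
    fl C (φ + θ) r ≠ r := by
  intro h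
  have hfx : Fx (fl C (φ + θ)) r := ⟨0, by rw [h]; simp⟩
  have h2 := ((hB C (φ + θ) hC hS').2.1 r).1 hfx
  set u := min ((Real.sin θ / B) ^ (1 / α)) δ with hu
  have hu0 : 0 < u := lt_min (Real.rpow_pos_of_pos (div_pos hθ hB0) _) hδ
  have hu1 : u ^ α ≤ Real.sin θ / B := by
    calc u ^ α ≤ ((Real.sin θ / B) ^ (1 / α)) ^ α :=
          Real.rpow_le_rpow hu0.le (min_le_left _ _) hα.le
      _ = Real.sin θ / B := by
          rw [← Real.rpow_mul (div_pos hθ hB0).le]
          rw [show 1 / α * α = 1 by field_simp, Real.rpow_one]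
  have hcu : |u * Real.cos θ| ≤ u := by
    rw [abs_mul, abs_of_pos hu0]
    have := Real.abs_cos_le_one θ
    nlinarith
  have hmem := hF 1 (Or.inl rfl) (pt C r) (pt_mem hC r) (fun z hz => by linarith [hr z hz])
    (u * Real.cos θ) (u * Real.sin θ) (by
      calc B * |u * Real.cos θ| ^ (1 + α) ≤ B * u ^ (1 + α) := by
            gcongr
        _ = B * (u * u ^ α) := by
            rw [Real.rpow_add hu0, Real.rpow_one]
        _ ≤ B * (u * (Real.sin θ / B)) := by gcongr
        _ = u * Real.sin θ := by field_simp)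
    (by
      have h3 : u ≤ δ := min_le_right _ _
      have h4 := Real.sin_le_one θ
      nlinarith)
  have heq : pt C r + ((u * Real.cos θ : ℝ) : ℂ) * e φ +
      ((1 * (u * Real.sin θ) : ℝ) : ℂ) * (Complex.I * e φ) = pt C r + (u : ℂ) * e (φ + θ) := by
    rw [e_rot φ θ]
    push_cast
    ring
  rw [heq] at hmem
  exact hu0.ne' (h2 u hmem)

/-- the chord at a level between the tips -/
theorem chord (hB : FLBStmt) {C : Set ℂ} {φ : ℝ} (hC : Body C) (hS : NoSeg C φ)
    (hI : IsFlip C φ (fl C φ)) {x : ℝ} (h1 : fl C φ x < x) (h2 : x < fl C φ x + 2 * π) :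
    ∀ z ∈ C, tc φ z = tc φ (pt C x) → yc φ (pt C (fl C φ x)) ≤ yc φ z ∧ yc φ z ≤ yc φ (pt C x) := by
  obtain ⟨s, hs, hs2⟩ := (hB C φ hC hS).2.2.2.1 x h1 h2
  have hch := HL.chord_max hC hS (pt_mem hC (fl C φ x)) (pt_mem hC x)
    (pt_notMem_interior hC _) (pt_notMem_interior hC _) hs hs2
  intro z hz hzt
  have h3 : z = pt C (fl C φ x) + ((yc φ z - yc φ (pt C (fl C φ x)) : ℝ) : ℂ) * e φ :=
    eq_add_of_tc_eq (by rw [hzt, hI.line])
  rw [h3] at hz
  have h4 := hch _ hz
  have h5 : yc φ (pt C x) = yc φ (pt C (fl C φ x)) + s := by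
    rw [hs2, yc_add, yc_mul, yc_e_self]; ring
  constructor
  · linarith [h4.1]
  · linarith [h4.2]

/-- the tip is the only point of its level -/
theorem tip_unique {C : Set ℂ} {φ : ℝ} (hS : NoSeg C φ) {p : ℂ} (hp : p ∈ C)
    (hm : ∀ z ∈ C, tc φ p ≤ tc φ z) : ∀ z ∈ C, tc φ z = tc φ p → z = p := by
  intro z hz hzt
  by_contra hne
  obtain ⟨w, hw, hw1⟩ := hS z hz p hp hne hzt
  have := HL.int_level hm w hw
  linarith

theorem total {C : Set ℂ} {R : ℝ} (hC : Convex ℝ C) (hR : C ⊆ closedBall 0 R)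
    {φ B α δ s0 : ℝ} (hB : 0 < B) (hα : 0 < α) (hδ : 0 < δ) (hs0 : 0 < s0)
    (hF : ∀ σ : ℝ, (σ = 1 ∨ σ = -1) → ∀ p ∈ C,
    (∀ z ∈ C, σ * tc φ p ≤ σ * tc φ z) → ∀ y t : ℝ, B * |y| ^ (1 + α) ≤ t → t ≤ δ →
      p + y * e φ + (σ * t : ℝ) * (Complex.I * e φ) ∈ C) {p q : ℂ} (hp : p ∈ C) (hq : q ∈ C)
    (hpm : ∀ z ∈ C, tc φ p ≤ tc φ z) (hqm : ∀ z ∈ C, tc φ z ≤ tc φ q) :
    ∫⁻ τ, dens C φ B (1 / (1 + α)) s0 (tc φ p) (tc φ q) τ ≤
      ENNReal.ofReal (2 * B ^ (1 / (1 + α)) * (s0 ^ (1 - 1 / (1 + α)) / (1 - 1 / (1 + α)))) +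
      ENNReal.ofReal (2 * B ^ (1 / (1 + α)) * (s0 ^ (1 - 1 / (1 + α)) / (1 - 1 / (1 + α)))) +
      Tm C φ := by
  have hβ1 : 1 / (1 + α) < 1 := by
    rw [div_lt_one (by linarith)]; linarith
  have hm1 : Measurable (fun t => hh B (1 / (1 + α)) s0 (t - tc φ p)) :=
    (hh_meas _ _ _).comp (measurable_id.sub measurable_const)
  have hm2 : Measurable (fun t => hh B (1 / (1 + α)) s0 (tc φ q - t)) :=
    (hh_meas _ _ _).comp (measurable_const.sub measurable_id)
  have hm12 : Measurable (fun t => hh B (1 / (1 + α)) s0 (t - tc φ p) +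
      hh B (1 / (1 + α)) s0 (tc φ q - t)) := hm1.add hm2
  unfold dens
  rw [lintegral_add_left hm12, lintegral_add_left hm1,
    lintegral_sub_right_eq_self (fun t => hh B (1 / (1 + α)) s0 t),
    lintegral_sub_left_eq_self (fun t => hh B (1 / (1 + α)) s0 t), int_hh hB hβ1 hs0]
  gcongr
  rw [lintegral_indicator measurableSet_Icc]
  unfold Tm
  apply lintegral_mono_set
  intro τ hτ
  exact (xr_low hC hR hB hα hδ hF hp hq hpm hqm (by linarith [hτ.1]) (by linarith [hτ.2])).1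

theorem half (hX : FLXStmt) (hFB : FLBStmt) (hM : MNFStmt) {C : Set ℂ} {φ : ℝ} (hC : Body C)
    (hS : NoSeg C φ) (hF : Fast C φ) {L1 : ℝ} (hL : Tm C φ < ENNReal.ofReal (2 * L1)) {r l : ℝ}
    (hr1 : φ - π < r) (hr2 : r < φ) (hr3 : fl C φ r = r)
    (hr4 : ∀ z ∈ C, tc φ (pt C r) ≤ tc φ z) (hl1 : φ < l) (hl2 : l < φ + π)
    (hl3 : fl C φ l = l - 2 * π) (hl4 : ∀ z ∈ C, tc φ z ≤ tc φ (pt C l)) :
    ∃ θ₀ > 0, ∀ θ, 0 < θ → θ < θ₀ → NoSeg C (φ + θ) → ∀ N : ℕ, L1 ≤ N * θ →
      l ≤ (TT C φ (φ + θ))^[N] r := by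
  obtain ⟨B, hB, α, hα, δ, hδ, hFs⟩ := hF
  obtain ⟨R, hR⟩ := hC.cpt.isBounded.subset_closedBall (0:ℂ)
  have hI := (hX C φ hC hS).1
  set p := pt C r with hpdef
  set q := pt C l with hqdef
  have hp : p ∈ C := pt_mem hC r
  have hq : q ∈ C := pt_mem hC l
  have hTm := tm_fin hC.conv hR hB hα hδ hFs hp hq hr4 hl4
  set A := (Tm C φ).toReal with hA
  have hTA : Tm C φ = ENNReal.ofReal A := (ENNReal.ofReal_toReal hTm).symm
  have hA0 : 0 ≤ A := ENNReal.toReal_nonneg
  have hL1 : 0 < 2 * L1 := by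
    by_contra hn
    push Not at hn
    rw [ENNReal.ofReal_of_nonpos hn] at hL
    exact absurd hL not_lt_zero
  have hAL : A < 2 * L1 := by
    rw [hTA] at hL
    exact (ENNReal.ofReal_lt_ofReal_iff hL1).1 hL
  set β := 1 / (1 + α) with hβ
  have hβ0 : 0 < β := by rw [hβ]; positivity
  have hβ1 : β < 1 := by
    rw [hβ, div_lt_one (by linarith)]; linarith
  -- the choice of s0
  have hs0 : ∃ s0 > 0, s0 ≤ δ ∧
      2 * (2 * B ^ β * (s0 ^ (1 - β) / (1 - β))) + A < 2 * L1 := by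
    have hcont : ContinuousAt (fun s : ℝ => 2 * (2 * B ^ β * (s ^ (1 - β) / (1 - β))) + A) 0 := by
      have h1 : ContinuousAt (fun s : ℝ => s ^ (1 - β)) 0 :=
        Real.continuousAt_rpow_const 0 (1 - β) (Or.inr (by linarith))
      exact ((h1.div_const _).const_mul _ |>.const_mul _).add continuousAt_const
    have h0 : (fun s : ℝ => 2 * (2 * B ^ β * (s ^ (1 - β) / (1 - β))) + A) 0 < 2 * L1 := by
      show 2 * (2 * B ^ β * ((0:ℝ) ^ (1 - β) / (1 - β))) + A < 2 * L1
      rw [Real.zero_rpow (by linarith)]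
      simpa using hAL
    have h2 := hcont.eventually (gt_mem_nhds h0)
    obtain ⟨ε, hε, h3⟩ := Metric.eventually_nhds_iff.1 h2
    refine ⟨min (ε / 2) δ, lt_min (by linarith) hδ, min_le_right _ _, ?_⟩
    apply h3
    rw [Real.dist_eq, sub_zero, abs_of_pos (lt_min (by linarith) hδ)]
    exact (min_le_left _ _).trans_lt (by linarith)
  obtain ⟨s0, hs00, hsδ, hsA⟩ := hs0
  set H := 2 * B ^ β * (s0 ^ (1 - β) / (1 - β)) with hH
  have hH0 : 0 ≤ H := by
    rw [hH]
    have h1 : (0:ℝ) < B ^ β := Real.rpow_pos_of_pos hB _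
    have h2 : (0:ℝ) < s0 ^ (1 - β) := Real.rpow_pos_of_pos hs00 _
    have h3 : 0 < 1 - β := by linarith
    positivity
  set A' := 2 * H + A with hA'
  have hA'0 : 0 ≤ A' := by positivity
  have htot : ∫⁻ τ, dens C φ B β s0 (tc φ p) (tc φ q) τ ≤ ENNReal.ofReal A' := by
    refine (total hC.conv hR hB hα hδ hs00 hFs hp hq hr4 hl4).trans (le_of_eq ?_)
    rw [hTA, ← hβ, ← hH, ← ENNReal.ofReal_add hH0 hH0, ← ENNReal.ofReal_add (by positivity) hA0,
      hA']
    congr 1
    ring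
  set K := 4 * R / s0 with hK
  have hR0 : 0 ≤ R := by
    have := hR hp
    rw [mem_closedBall_zero_iff] at this
    exact (norm_nonneg _).trans this
  have hK0 : 0 ≤ K := by rw [hK]; positivity
  -- the choice of θ₀
  have hθ0 : ∃ ε > 0, ∀ θ : ℝ, |θ| < ε →
      2 * R * Real.sin θ < s0 / 2 * (Real.cos θ - K * Real.sin θ) ∧
      A' * (Real.cos θ + K * Real.sin θ) < (1 - θ ^ 2 / 4) * (2 * L1) ∧ |θ| < 1 := by
    have h1 : ∀ᶠ θ : ℝ in 𝓝 0, 2 * R * Real.sin θ < s0 / 2 * (Real.cos θ - K * Real.sin θ) := by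
      have c1 : Continuous (fun θ : ℝ => 2 * R * Real.sin θ) := by fun_prop
      have c2 : Continuous (fun θ : ℝ => s0 / 2 * (Real.cos θ - K * Real.sin θ)) := by fun_prop
      refine c1.continuousAt.eventually_lt c2.continuousAt ?_
      simp only [Real.sin_zero, Real.cos_zero]
      linarith
    have h2 : ∀ᶠ θ : ℝ in 𝓝 0,
        A' * (Real.cos θ + K * Real.sin θ) < (1 - θ ^ 2 / 4) * (2 * L1) := by
      have c1 : Continuous (fun θ : ℝ => A' * (Real.cos θ + K * Real.sin θ)) := by fun_prop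
      have c2 : Continuous (fun θ : ℝ => (1 - θ ^ 2 / 4) * (2 * L1)) := by fun_prop
      refine c1.continuousAt.eventually_lt c2.continuousAt ?_
      simp only [Real.sin_zero, Real.cos_zero]
      rw [hA']
      linarith
    obtain ⟨ε, hε, h3⟩ := Metric.eventually_nhds_iff.1 (h1.and h2)
    refine ⟨min ε 1, lt_min hε one_pos, fun θ hθ => ?_⟩
    have h4 := h3 (y := θ) (by rw [Real.dist_eq, sub_zero]; exact hθ.trans_le (min_le_left _ _))
    exact ⟨h4.1, h4.2, hθ.trans_le (min_le_right _ _)⟩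
  obtain ⟨θ₀, hθ₀, hθp⟩ := hθ0
  refine ⟨θ₀, hθ₀, fun θ hθ hθlt hS' N hN => ?_⟩
  obtain ⟨g1, g2, g3⟩ := hθp θ (by rw [abs_of_pos hθ]; exact hθlt)
  rw [abs_of_pos hθ] at g3
  have hpi := Real.pi_gt_three
  have hsin : 0 < Real.sin θ := Real.sin_pos_of_pos_of_lt_pi hθ (by linarith)
  have hcos : 0 < Real.cos θ := Real.cos_pos_of_mem_Ioo ⟨by linarith, by linarith⟩
  set W := Real.cos θ + K * Real.sin θ with hW
  have hW0 : 0 < W := by positivity
  set c := 2 * Real.sin θ / W with hc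
  have hc0 : 0 < c := by positivity
  have hNc : A' < N * c := by
    have h1 : θ - θ ^ 3 / 4 < Real.sin θ := by
      have h0 := Real.sin_gt_sub_cube hθ
      have h00 : 0 < θ ^ 3 := by positivity
      linarith
    have h2 : A' * W * θ < (1 - θ ^ 2 / 4) * (2 * L1) * θ := mul_lt_mul_of_pos_right g2 hθ
    have h3 : (1 - θ ^ 2 / 4) * (2 * L1) * θ ≤ Real.sin θ * (2 * L1) := by
      nlinarith
    have h4 : Real.sin θ * (2 * L1) ≤ Real.sin θ * (2 * (N * θ)) := by
      apply mul_le_mul_of_nonneg_left _ hsin.le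
      linarith
    have h5 : A' * W * θ < (2 * Real.sin θ * N) * θ := by linarith
    have h6 : A' * W < 2 * Real.sin θ * N := lt_of_mul_lt_mul_right h5 hθ.le
    rw [hc, ← mul_div_assoc, lt_div_iff₀ hW0]
    linarith
  have hI' := (hX C (φ + θ) hC hS').1
  have hmv := r_move hFB hC hS' hB hα hδ hFs hr4 hsin
  have hlev := (HL.mono_level hC hS hr1 hr2 hl1 hl2 hr4 hl4).1
  by_contra hcon
  push Not at hcon
  have claim : ∀ i : ℕ, (TT C φ (φ + θ))^[i] r < l → r ≤ (TT C φ (φ + θ))^[i] r ∧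
      (i : ℝ≥0∞) * ENNReal.ofReal c ≤ ∫⁻ τ in Iic (tc φ (pt C ((TT C φ (φ + θ))^[i] r))),
        dens C φ B β s0 (tc φ p) (tc φ q) τ := by
    intro i
    induction i with
    | zero => intro _; simp
    | succ i ih =>
      intro hlt
      rw [Function.iterate_succ_apply'] at hlt ⊢
      set x := (TT C φ (φ + θ))^[i] r with hx
      have hy : TT C φ (φ + θ) x = fl C (φ + θ) (fl C φ x) := rfl
      set y := TT C φ (φ + θ) x with hydef
      have hxy : x ≤ y := by
        have := (hM C φ (φ + θ) (fl C φ x) hC hS hS' (by linarith)).1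
        rw [hI.inv] at this
        rw [hy]; exact this
      obtain ⟨ih1, ih2⟩ := ih (hxy.trans_lt hlt)
      have hFxr : fl C φ x ≤ r := by
        have := hI.anti.antitone ih1
        rw [hr3] at this; exact this
      have hFy : fl C (φ + θ) y = fl C φ x := by rw [hy, hI'.inv]
      have hFxy : fl C φ x < y := by
        by_contra hn
        push Not at hn
        have e1 : x = r := le_antisymm (hxy.trans (hn.trans hFxr)) ih1
        have e2 : fl C φ x = r := by rw [e1, hr3]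
        have e3 : y = r := le_antisymm (hn.trans hFxr) (ih1.trans hxy)
        rw [e2, e3] at hFy
        exact hmv hFy
      have hlx : l - 2 * π < fl C φ x := by
        have := hI.anti (hxy.trans_lt hlt)
        rw [hl3] at this; exact this
      obtain ⟨s, hs, hPQ⟩ := (hFB C (φ + θ) hC hS').2.2.2.1 y (by rw [hFy]; exact hFxy)
        (by rw [hFy]; linarith)
      rw [hFy] at hPQ
      have hry : r < y := by
        rcases lt_or_eq_of_le (ih1.trans hxy) with h | h
        · exact h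
        · exfalso
          have e1 : x = r := le_antisymm (hxy.trans h.symm.le) ih1
          rw [e1, hr3] at hFxy
          exact absurd hFxy (by rw [← h]; exact lt_irrefl _)
      have hQM : tc φ (pt C y) < tc φ (pt C l) :=
        hlev ⟨hry.le, hlt.le⟩ ⟨by linarith, le_rfl⟩ hlt
      have hPlev : tc φ (pt C (fl C φ x)) = tc φ (pt C x) := hI.line x
      have hQt : ∀ z ∈ C, tc φ z = tc φ (pt C y) → yc φ z ≤ yc φ (pt C y) := by
        have h1 : fl C φ y < y := by
          have := hI.anti hry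
          rw [hr3] at this; linarith
        have h2 : y < fl C φ y + 2 * π := by
          have := hI.anti hlt
          rw [hl3] at this; linarith
        exact fun z hz hzt => (chord hFB hC hS hI h1 h2 z hz hzt).2
      have hPb : ∀ z ∈ C, tc φ z = tc φ (pt C (fl C φ x)) → yc φ (pt C (fl C φ x)) ≤ yc φ z := by
        rcases lt_or_eq_of_le ih1 with h | h
        · have h1 : fl C φ x < x := by
            have := hI.anti h
            rw [hr3] at this; linarith
          have h2 : x < fl C φ x + 2 * π := by linarith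
          intro z hz hzt
          rw [hPlev] at hzt
          exact (chord hFB hC hS hI h1 h2 z hz hzt).1
        · intro z hz hzt
          rw [← h, hr3] at hzt ⊢
          rw [tip_unique hS hp hr4 z hz hzt]
      have htQ : tc φ (pt C y) = tc φ (pt C x) + s * Real.sin θ := by
        rw [hPQ, tc_add, tc_mul, tc_e, hPlev]
        rw [show φ + θ - φ = θ by ring]
      refine ⟨ih1.trans hxy, ?_⟩
      have hg := gain (f := dens C φ B β s0 (tc φ p) (tc φ q)) (t := tc φ (pt C x)) (s := s)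
        (θ := θ) (W := W) hs hsin hW0 (by
          intro τ h1 h2
          exact step_pt hC hS' hR hB hα hFs hp hq hr4 hl4 (pt_mem hC (fl C φ x)) (pt_mem hC y)
            (pt_notMem_interior hC _) (pt_notMem_interior hC _) hs hPQ hPb hQt hQM hsin hs00 hsδ
            hK g1.le (by rw [hPlev]; exact h1) (by rw [htQ]; exact h2))
      rw [htQ]
      refine le_trans ?_ hg
      rw [← hc]
      push_cast
      rw [add_mul, one_mul]
      gcongr
  have hfin := (claim N hcon).2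
  have h1 : (N : ℝ≥0∞) * ENNReal.ofReal c ≤ ENNReal.ofReal A' := by
    refine hfin.trans (le_trans ?_ htot)
    exact setLIntegral_le_lintegral _ _
  rw [← ENNReal.ofReal_natCast, ← ENNReal.ofReal_mul (by positivity)] at h1
  have h2 := (ENNReal.ofReal_le_ofReal_iff hA'0).1 h1
  linarith

end UPaux

end Pool.XR2
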